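import Pool.Agent.K9h13.RD.EX3

/-!
# Differences of two primes after deleting a small proportion of the primes

Let `A` be a set containing at least the proportion `1 - η` of the primes.  Then the even numbers `h`
which are not a difference of two primes of `A` have upper density at most
`exp (- exp ((2 C₂ e ^ (-γ) - δ) / η))`, and the constant `2 C₂ e ^ (-γ)` is optimal.
-/

set_option autoImplicit false

namespace Pool.Agent.Results.MP_70e905_nt.DeletedPrimesDifferences

open Finset Filter Topology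

open Classical in
/-- The number of elements of `S` in `[1, x]`. -/
noncomputable def count (S : Set ℕ) (x : ℕ) : ℕ := ((Icc 1 x).filter (fun n => n ∈ S)).card

/-- The upper asymptotic density. -/
noncomputable def upperDensity (S : Set ℕ) : ℝ := limsup (fun x : ℕ => (count S x : ℝ) / x) atTop

/-- The lower asymptotic density. -/
noncomputable def lowerDensity (S : Set ℕ) : ℝ := liminf (fun x : ℕ => (count S x : ℝ) / x) atTop

/-- The lower density, relative to the set of all primes, of the set of the primes in `A`. -/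
noncomputable def relLower (A : Set ℕ) : ℝ :=
  liminf (fun x : ℕ => (count {p | p.Prime ∧ p ∈ A} x : ℝ) / (count {p | p.Prime} x : ℝ)) atTop

/-- The even numbers which are not a difference of two primes of `A`. -/
def missed (A : Set ℕ) : Set ℕ :=
  {h | Even h ∧ ¬ ∃ p q : ℕ, (p.Prime ∧ p ∈ A) ∧ (q.Prime ∧ q ∈ A) ∧ (p : ℤ) - q = h}

/-- The twin prime constant `∏_{p > 2} (1 - 1 / (p - 1) ^ 2)`. -/
noncomputable def C₂ : ℝ := ⨅ z : ℕ, ∏ p ∈ (Icc 3 z).filter Nat.Prime, (1 - 1 / ((p : ℝ) - 1) ^ 2)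

lemma C2_eq : 2 * C₂ * Real.exp (-Real.eulerMascheroniConstant) = 2 * Pool.Agent.K9h13.RD.DD := by
  unfold Pool.Agent.K9h13.RD.DD
  have h : C₂ = Pool.Agent.TH881.RG.C2 := rfl
  rw [h]
  ring

lemma upper_mono {S T : Set ℕ} (h : S ⊆ T) :
    upperDensity S ≤ Pool.Agent.TH881.RG.upperDensity T := by
  unfold upperDensity Pool.Agent.TH881.RG.upperDensity
  apply limsup_le_limsup _ (Pool.Agent.TH881.ratio_bdd_below _).isCoboundedUnder_le
    (Pool.Agent.TH881.ratio_bdd_above _)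
  apply Eventually.of_forall
  intro n
  apply div_le_div_of_nonneg_right _ (Nat.cast_nonneg _)
  have h2 := Pool.Agent.TH881.cnt_subset h n
  exact_mod_cast h2

lemma missed_eq (A : Set ℕ) : missed A =
    {h | Even h ∧ ¬ ∃ p q : ℕ, p.Prime ∧ q.Prime ∧ p ∈ A ∧ q ∈ A ∧ q + h = p} := by
  ext h
  unfold missed
  constructor
  · rintro ⟨h1, h2⟩
    refine ⟨h1, ?_⟩
    rintro ⟨p, q, hp, hq, hpA, hqA, he⟩
    exact h2 ⟨p, q, ⟨hp, hpA⟩, ⟨hq, hqA⟩, by omega⟩
  · rintro ⟨h1, h2⟩
    refine ⟨h1, ?_⟩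
    rintro ⟨p, q, ⟨hp, hpA⟩, ⟨hq, hqA⟩, he⟩
    exact h2 ⟨p, q, hp, hq, hpA, hqA, by omega⟩

/-- a missed number has no pairs -/
lemma missed_subset (A : Set ℕ) (L : ℝ) :
    missed A ⊆ {h | Even h ∧ (Pool.Agent.K9h13.RD.rd L A h : ℝ) ≤ 0 * Pool.Agent.K9h13.RD.rd L Set.univ h} := by
  rw [missed_eq]
  rintro h ⟨h1, h2⟩
  refine ⟨h1, ?_⟩
  have h3 : Pool.Agent.K9h13.RD.rd L A h = 0 := by
    unfold Pool.Agent.K9h13.RD.rd
    rw [card_eq_zero, eq_empty_iff_forall_notMem]
    intro q hq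
    rw [Pool.Agent.K9h13.RD.mem_rdS] at hq
    exact h2 ⟨q + h, q, hq.2.2.1, hq.2.1.1, hq.2.2.2, hq.2.1.2, rfl⟩
  rw [h3]
  norm_num

/-- **Differences of the primes of a set of relative density close to one.** -/
theorem result (δ : ℝ) (hδ : 0 < δ) :
    ∃ η0 : ℝ, 0 < η0 ∧ ∀ η : ℝ, 0 < η → η ≤ η0 →
      (∀ A : Set ℕ, 1 - η ≤ relLower A →
        upperDensity (missed A) ≤
          Real.exp (-Real.exp ((2 * C₂ * Real.exp (-Real.eulerMascheroniConstant) - δ) / η))) ∧
      ∃ A : Set ℕ, 1 - η ≤ relLower A ∧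
        Real.exp (-Real.exp ((2 * C₂ * Real.exp (-Real.eulerMascheroniConstant) + δ) / η)) ≤
          lowerDensity (missed A) := by
  rw [C2_eq]
  have hDD := Pool.Agent.K9h13.RD.DD_pos
  -- a long range of pairs
  obtain ⟨L, hL⟩ : ∃ L : ℝ, L = 4 * Pool.Agent.K9h13.RD.DD / δ := ⟨_, rfl⟩
  have hL0 : 0 < L := by rw [hL]; positivity
  obtain ⟨η1, hη1, H1⟩ := Pool.Agent.K9h13.RD.del_upper 0 (δ / 2) L le_rfl one_pos (by positivity) hL0
  obtain ⟨η2, hη2, H2⟩ := Pool.Agent.K9h13.RD.example_all δ hδ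
  refine ⟨min η1 η2, by positivity, fun η hη hηle => ⟨?_, ?_⟩⟩
  · intro A hA
    refine (upper_mono (missed_subset A L)).trans ((H1 η hη (hηle.trans (min_le_left _ _)) A hA).trans ?_)
    apply Real.exp_le_exp.2
    apply neg_le_neg
    apply Real.exp_le_exp.2
    apply div_le_div_of_nonneg_right _ hη.le
    have h1 : (1 - 0) * (L / (1 + L)) * (2 * Pool.Agent.K9h13.RD.DD) =
        2 * Pool.Agent.K9h13.RD.DD - 2 * Pool.Agent.K9h13.RD.DD / (1 + L) := by
      field_simp
      ring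
    have h2 : 2 * Pool.Agent.K9h13.RD.DD / (1 + L) ≤ δ / 2 := by
      rw [div_le_iff₀ (by linarith)]
      have h3 : δ / 2 * L = 2 * Pool.Agent.K9h13.RD.DD := by
        rw [hL]
        field_simp
        norm_num
      linarith
    rw [h1]
    linarith
  · obtain ⟨A, hA, h⟩ := H2 η hη (hηle.trans (min_le_right _ _))
    refine ⟨A, hA, ?_⟩
    rw [missed_eq]
    exact h

end Pool.Agent.Results.MP_70e905_nt.DeletedPrimesDifferences
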