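import Mathlib
import Pool.Agent.K9h56.PG.Main

/-!
# One of `N, 2N, ..., 100N` is a gap between consecutive primes in a given residue class

For every even `N`, every squarefree divisor `q` of `N` and every `c` coprime to `q`, one of the numbers
`N, 2N, ..., 100N` is equal to `p' - p` for at least `x ^ (1 - ε)` pairs of consecutive primes `p, p'` with
`p ≡ p' ≡ c (mod q)`, for arbitrarily large `x` (starting files: `120N`, without residue class). The proof uses
`DHL[43,2]` with a residue class (`Pool.Agent.K9h6.C.dhl43`); the same holds for the differences of any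
admissible set of `43` multiples of `q` (`Pool.Agent.K9h56.PG.difference_gapq`).
-/

set_option autoImplicit false

namespace Pool.Agent.Results.MP_70e905_nt.GapMultiplesHundred

/-- Let `N > 0` be even, `q` a squarefree divisor of `N` and `c` coprime to `q`. There is `k` with
`1 ≤ k ≤ 100` such that for every `ε > 0` and arbitrarily large `x` there are at least `x ^ (1 - ε)` primes
`p ≤ x`, `p ≡ c (mod q)`, for which the next prime is `p + k N`
(`Nat.nth Nat.Prime n` is the prime with index `n`, `n = 0, 1, ...`). -/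
theorem result (N : ℕ) (hN : 0 < N) (hN2 : Even N) (q : ℕ) (hq : Squarefree q) (hqN : q ∣ N) (c : ℕ)
    (hc : c.Coprime q) :
    ∃ k : ℕ, 1 ≤ k ∧ k ≤ 100 ∧ ∀ ε : ℝ, 0 < ε → ∃ᶠ x : ℝ in Filter.atTop,
      x ^ (1 - ε) ≤ (Set.ncard {n : ℕ | (Nat.nth Nat.Prime n : ℝ) ≤ x ∧ Nat.nth Nat.Prime n ≡ c [MOD q] ∧
        Nat.nth Nat.Prime (n + 1) = Nat.nth Nat.Prime n + k * N} : ℝ) := by
  obtain ⟨M, rfl⟩ := hN2
  obtain ⟨k, hk1, hk2, h⟩ := Pool.Agent.K9h56.PG.multiple_gapq (by norm_num) Pool.Agent.K9h6.C.dhl43 100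
    Pool.Agent.K9h6.T10.tup43 Pool.Agent.K9h6.T10.tup43_admissible Pool.Agent.K9h6.T10.tup43_le
    Pool.Agent.K9h6.T10.tup43_even M (by omega) q hq (c : ℤ) (by rwa [two_mul]) (Nat.isCoprime_iff_coprime.mpr hc)
  refine ⟨k, hk1, hk2, fun ε hε => ?_⟩
  refine (h ε hε).mono fun x hx => ?_
  refine hx.trans (le_of_eq ?_)
  have e : ((k : ℤ) * (2 * (M : ℤ))) = ((k * (M + M) : ℕ) : ℤ) := by
    push_cast
    ring
  rw [e, Pool.Agent.K9h56.PG.gapSetC_eq]

end Pool.Agent.Results.MP_70e905_nt.GapMultiplesHundred
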