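import Pool.Agent.K9h13.RD.EX3

/-!
# The proportion of the pairs of primes with a given difference after deleting a small proportion of the primes

Let `A` be a set containing at least the proportion `1 - η` of the primes, `0 ≤ κ < 1` and `L > 0`.  The
even numbers `h` for which at most the proportion `κ` of the pairs `(q, q + h)` of primes with `q ≤ L h`
lie in `A` have upper density at most `exp (- exp (((1 - κ) (L / (1 + L)) 2 C₂ e ^ (-γ) - δ) / η))`, and
this constant is optimal.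
-/

set_option autoImplicit false

namespace Pool.Agent.Results.MP_70e905_nt.ProportionOfPairs

open Finset Filter Topology

open Classical in
/-- The number of elements of `S` in `[1, x]`. -/
noncomputable def count (S : Set ℕ) (x : ℕ) : ℕ := ((Icc 1 x).filter (fun n => n ∈ S)).card

/-- The upper asymptotic density. -/
noncomputable def upperDensity (S : Set ℕ) : ℝ := limsup (fun x : ℕ => (count S x : ℝ) / x) atTop

/-- The lower density, relative to the set of all primes, of the set of the primes in `A`. -/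
noncomputable def relLower (A : Set ℕ) : ℝ :=
  liminf (fun x : ℕ => (count {p | p.Prime ∧ p ∈ A} x : ℝ) / (count {p | p.Prime} x : ℝ)) atTop

/-- The number of the primes `q ≤ L h` in `A` for which `q + h` is a prime in `A`. -/
noncomputable def pairs (L : ℝ) (A : Set ℕ) (h : ℕ) : ℕ :=
  {q : ℕ | (q : ℝ) ≤ L * h ∧ (q.Prime ∧ q ∈ A) ∧ ((q + h).Prime ∧ q + h ∈ A)}.ncard

/-- The twin prime constant `∏_{p > 2} (1 - 1 / (p - 1) ^ 2)`. -/
noncomputable def C₂ : ℝ := ⨅ z : ℕ, ∏ p ∈ (Icc 3 z).filter Nat.Prime, (1 - 1 / ((p : ℝ) - 1) ^ 2)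

lemma pairs_eq (L : ℝ) (hL : 0 ≤ L) (A : Set ℕ) (h : ℕ) : pairs L A h = Pool.Agent.K9h13.RD.rd L A h := by
  classical
  unfold pairs Pool.Agent.K9h13.RD.rd
  rw [← Set.ncard_coe_finset]
  congr 1
  ext q
  rw [mem_coe, Pool.Agent.K9h13.RD.mem_rdS]
  constructor
  · rintro ⟨h1, h2, h3⟩
    exact ⟨⟨h2.1.pos, Nat.le_floor h1⟩, h2, h3⟩
  · rintro ⟨⟨h1, h2⟩, h3, h4⟩
    refine ⟨?_, h3, h4⟩
    have h5 : (q : ℝ) ≤ (⌊L * (h : ℝ)⌋₊ : ℝ) := by exact_mod_cast h2
    exact h5.trans (Nat.floor_le (by positivity))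

lemma C2_eq : 2 * C₂ * Real.exp (-Real.eulerMascheroniConstant) = 2 * Pool.Agent.K9h13.RD.DD := by
  unfold Pool.Agent.K9h13.RD.DD
  have h : C₂ = Pool.Agent.TH881.RG.C2 := rfl
  rw [h]
  ring

/-- **The pairs with a given difference in a set of relative density close to one.** -/
theorem result (κ L δ : ℝ) (hκ0 : 0 ≤ κ) (hκ1 : κ < 1) (hL : 0 < L) (hδ : 0 < δ) :
    ∃ η0 : ℝ, 0 < η0 ∧ ∀ η : ℝ, 0 < η → η ≤ η0 →
      (∀ A : Set ℕ, 1 - η ≤ relLower A →
        upperDensity {h | Even h ∧ (pairs L A h : ℝ) ≤ κ * pairs L Set.univ h} ≤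
          Real.exp (-Real.exp (((1 - κ) * (L / (1 + L)) *
            (2 * C₂ * Real.exp (-Real.eulerMascheroniConstant)) - δ) / η))) ∧
      ∃ A : Set ℕ, 1 - η ≤ relLower A ∧
        Real.exp (-Real.exp (((1 - κ) * (L / (1 + L)) *
            (2 * C₂ * Real.exp (-Real.eulerMascheroniConstant)) + δ) / η)) ≤
          upperDensity {h | Even h ∧ (pairs L A h : ℝ) ≤ κ * pairs L Set.univ h} := by
  rw [C2_eq]
  obtain ⟨η1, hη1, H1⟩ := Pool.Agent.K9h13.RD.del_upper κ δ L hκ0 hκ1 hδ hL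
  obtain ⟨η2, hη2, H2⟩ := Pool.Agent.K9h13.RD.example_win κ δ L hκ0 hκ1 hδ hL
  have hset : ∀ A : Set ℕ, {h : ℕ | Even h ∧ (pairs L A h : ℝ) ≤ κ * pairs L Set.univ h} =
      {n : ℕ | Even n ∧ (Pool.Agent.K9h13.RD.rd L A n : ℝ) ≤ κ * Pool.Agent.K9h13.RD.rd L Set.univ n} := by
    intro A
    ext n
    constructor
    · rintro ⟨h1, h2⟩
      rw [pairs_eq L hL.le, pairs_eq L hL.le] at h2
      exact ⟨h1, h2⟩
    · rintro ⟨h1, h2⟩
      rw [← pairs_eq L hL.le, ← pairs_eq L hL.le] at h2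
      exact ⟨h1, h2⟩
  refine ⟨min η1 η2, by positivity, fun η hη hηle => ⟨?_, ?_⟩⟩
  · intro A hA
    rw [hset A]
    exact H1 η hη (hηle.trans (min_le_left _ _)) A hA
  · obtain ⟨A, hA, h⟩ := H2 η hη (hηle.trans (min_le_right _ _))
    refine ⟨A, hA, ?_⟩
    rw [hset A]
    exact h

end Pool.Agent.Results.MP_70e905_nt.ProportionOfPairs
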