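import Pool.Agent.K9h13.TR.A
import Pool.Agent.W25.UB.Final
import Pool.Agent.W25.TF.Fin
import Pool.Agent.W150.UBC1a
import Pool.Agent.W432.UB.C1b

/-!
# Prime gaps among the translates of the differences of an arbitrary infinite set

Let `N` be even and squarefree and `a` coprime to `N` (for instance `N = 2`, `a = 1`). Call `d` a gap if
`p_{n+1} - p_n = d`, `p_n ≡ a (mod N)`, for at least `x ^ (1 - η)` primes `p_n ≤ x`, for every `η > 0` and
arbitrarily large `x`.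

Every infinite set `S` of natural numbers (for instance the set of the powers of `2`) contains a sequence
`s_0 < s_1 < s_2 < ...` with the following property. Let `P` be the set of the integers `k` for which
`N k + (s_j - s_i)` is a gap for ALL `j > i ≥ |k|`. Then for any integers `m_1, m_2, m_3, m_4` which miss a
residue class modulo `3` (any integers, if `3 ∣ N`) one of the differences `m_j - m_i`, `i < j`, is in `P`.
So `0 ∈ P` and, for every `k`, one of `k, 2 k, 3 k, 4 k` is in `P`. Moreover `P` contains at least one third of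
the integers of every long interval (on both sides of `0`), and at least one half of the multiples in long
intervals of every sufficiently divisible integer.

Proof: the coloured Maynard-Tao theorem with four classes of shifts (`Pool.Agent.W25.UB.thmV`) for classes
`m_g + S_g` where `S_1 < S_2 < S_3 < S_4` are parts of the sequence; limits along an ultrafilter; the
combinatorial theorems of the starting files for the set `P`.
-/

set_option autoImplicit false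

namespace Pool.Agent.Results.MP_70e905_nt.TranslatesOfDifferences

open Finset Filter

/-- `d` is a gap: `p_{n+1} = p_n + d`, `p_n ≡ a (mod N)`, for at least `x ^ (1 - η)` of the primes `p_n ≤ x`,
for every `η > 0` and arbitrarily large `x`. -/
def IsGap (N a d : ℕ) : Prop := ∀ η : ℝ, 0 < η → ∃ᶠ x : ℝ in atTop,
  x ^ (1 - η) ≤ ({n : ℕ | (Nat.nth Nat.Prime n : ℝ) ≤ x ∧ Nat.nth Nat.Prime n ≡ a [MOD N] ∧
    Nat.nth Nat.Prime (n + 1) = Nat.nth Nat.Prime n + d}.ncard : ℝ)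

open Pool.Agent.K9h13.TR in
/-- **Translates of the differences of an arbitrary infinite set.** -/
theorem result (N a : ℕ) (h2 : 2 ∣ N) (hsq : Squarefree N) (ha : Nat.Coprime a N)
    (S : Set ℕ) (hS : S.Infinite) :
    ∃ (s : ℕ → ℕ) (P : Set ℤ), StrictMono s ∧ (∀ i, s i ∈ S) ∧
      (∀ k ∈ P, ∀ i j : ℕ, |k| ≤ i → i < j →
        ∃ d : ℕ, (d : ℤ) = N * k + (s j - s i) ∧ IsGap N a d) ∧
      (∀ m : Fin 4 → ℤ, (3 ∣ N ∨ ∃ c : ℤ, ∀ g, ¬ (3 : ℤ) ∣ m g - c) → ∃ g g', g < g' ∧ m g' - m g ∈ P) ∧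
      (∀ ε : ℝ, 0 < ε → ∃ L : ℕ, ∀ T : ℕ, L ≤ T → ∀ u : ℕ,
        (1 / 3 - ε) * (T : ℝ) ≤ ({k : ℕ | u < k ∧ k ≤ u + T ∧ (k : ℤ) ∈ P}.ncard : ℝ) ∧
        (1 / 3 - ε) * (T : ℝ) ≤ ({k : ℕ | u < k ∧ k ≤ u + T ∧ -(k : ℤ) ∈ P}.ncard : ℝ)) ∧
      (∀ ε : ℝ, 0 < ε → ∃ Q : ℕ, 0 < Q ∧ ∀ q : ℕ, 0 < q → Q ∣ q → ∃ L : ℕ, ∀ T : ℕ, L ≤ T → ∀ u : ℕ,
        (1 / 2 - ε) * (T : ℝ) ≤ ({k : ℕ | u < k ∧ k ≤ u + T ∧ (q : ℤ) * k ∈ P}.ncard : ℝ) ∧
        (1 / 2 - ε) * (T : ℝ) ≤ ({k : ℕ | u < k ∧ k ≤ u + T ∧ -((q : ℤ) * k) ∈ P}.ncard : ℝ)) := by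
  classical
  have hN : 0 < N := Nat.pos_of_ne_zero hsq.ne_zero
  obtain ⟨G, hG⟩ : ∃ G : Set ℕ, G = Pool.Agent.W59.GB.GapB N a := ⟨_, rfl⟩
  obtain ⟨K, -, hK⟩ := Pool.Agent.W150.UBC1a.main Pool.Agent.W25.UB.thmV N a hN h2 hsq ha
  rw [← hG] at hK
  have hhit : Hit N K G := hK
  -- a residue class
  obtain ⟨r, T, hT, hTS⟩ : ∃ (r : ℕ) (T : Set ℕ), T.Infinite ∧ ∀ t ∈ T, N * t + r ∈ S := by
    by_contra hcon
    push Not at hcon
    have h1 : ∀ r ∈ range N, {t : ℕ | N * t + r ∈ S}.Finite := by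
      intro r _
      by_contra h
      obtain ⟨t, ht1, ht2⟩ := hcon r {t : ℕ | N * t + r ∈ S} h
      exact ht2 ht1
    have h2 : (⋃ r ∈ range N, (fun t => N * t + r) '' {t : ℕ | N * t + r ∈ S}).Finite := by
      apply Set.Finite.biUnion (finite_toSet _)
      intro r hr
      exact (h1 r hr).image _
    apply hS
    apply h2.subset
    intro x hx
    rw [Set.mem_iUnion₂]
    have hx' : N * (x / N) + x % N = x := Nat.div_add_mod x N
    refine ⟨x % N, mem_range.2 (Nat.mod_lt _ hN), x / N, ?_, hx'⟩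
    rw [Set.mem_ofPred_eq, hx']
    exact hx
  obtain ⟨U, hU1, hU2⟩ := exists_ultra T hT
  obtain ⟨b, hb1, hb2, hb3⟩ := exists_seq' U hU2 T hU1 G
  have hpos := hit_pos U hU2 N K G hhit
  have hneg := hit_neg U hU2 N K G hhit
  refine ⟨fun i => N * b i + r, PP U G, ?_, fun i => hTS _ (hb2 i), ?_, ?_, ?_, ?_⟩
  · intro i j hij
    have h1 := Nat.mul_lt_mul_of_pos_left (hb1 hij) hN
    show N * b i + r < N * b j + r
    omega
  · intro k hk i j hki hij
    have hki' : k.natAbs ≤ i := by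
      rw [Int.abs_eq_natAbs] at hki
      exact_mod_cast hki
    have h1 : cc G k (b i) (b j) := (hb3 k i j hki' hij).2 hk
    unfold cc at h1
    rw [hG] at h1
    obtain ⟨t, ht⟩ : ∃ t : ℕ, t = ((b j : ℤ) - b i + k).toNat := ⟨_, rfl⟩
    rw [← ht] at h1
    have ht0 : 0 < t := by
      by_contra h0
      have h0' : t = 0 := by omega
      rw [h0'] at h1
      have h3 := h1 1 one_pos
      have h4 : {n : ℕ | n.Prime ∧ n ≡ a [MOD N] ∧ (n + N * 0).Prime ∧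
          0 < N * 0 ∧ ∀ m, n < m → m < n + N * 0 → ¬ m.Prime} = ∅ := by
        ext n
        simp
      rw [h4] at h3
      obtain ⟨x, h5, h6⟩ := (h3.and_eventually (eventually_ge_atTop (1 : ℝ))).exists
      simp at h5
      linarith
    refine ⟨N * t, ?_, fun η hη => Pool.Agent.W59.GB.nthB h1 η hη⟩
    have h5 : (t : ℤ) = (b j : ℤ) - b i + k := by omega
    push_cast
    rw [h5]
    ring
  · intro m hm
    exact four_three U hU2 N K h2 G hhit m hm
  · intro ε hε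
    obtain ⟨L1, h1⟩ := Pool.Agent.W432.UB.main N {k : ℕ | (k : ℤ) ∈ PP U G} h2 ⟨1, le_rfl, hpos⟩ ε hε
    obtain ⟨L2, h3⟩ := Pool.Agent.W432.UB.main N {k : ℕ | -(k : ℤ) ∈ PP U G} h2 ⟨1, le_rfl, hneg⟩ ε hε
    refine ⟨L1 + L2, fun T hT u => ⟨(h1 T (by omega) u).trans ?_, (h3 T (by omega) u).trans ?_⟩⟩
    · rw [Pool.Agent.W59.GB.win_eq, Nat.cast_le, ← Set.ncard_coe_finset]
      refine Set.ncard_le_ncard ?_ ((Set.finite_Ioc u (u + T)).subset fun k hk => ⟨hk.1, hk.2.1⟩)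
      intro d hd
      rw [Finset.coe_filter, Set.mem_ofPred_eq, Finset.mem_Ioc] at hd
      exact ⟨hd.1.1, hd.1.2, hd.2⟩
    · rw [Pool.Agent.W59.GB.win_eq, Nat.cast_le, ← Set.ncard_coe_finset]
      refine Set.ncard_le_ncard ?_ ((Set.finite_Ioc u (u + T)).subset fun k hk => ⟨hk.1, hk.2.1⟩)
      intro d hd
      rw [Finset.coe_filter, Set.mem_ofPred_eq, Finset.mem_Ioc] at hd
      exact ⟨hd.1.1, hd.1.2, hd.2⟩
  · intro ε hε
    obtain ⟨Q1, hQ1, h1⟩ := Pool.Agent.W25.TF.tf4 Pool.Agent.W25.TF.s_maiF4 {k : ℕ | (k : ℤ) ∈ PP U G} N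
      ⟨1, le_rfl, hpos⟩ ε hε
    obtain ⟨Q2, hQ2, h3⟩ := Pool.Agent.W25.TF.tf4 Pool.Agent.W25.TF.s_maiF4 {k : ℕ | -(k : ℤ) ∈ PP U G} N
      ⟨1, le_rfl, hneg⟩ ε hε
    refine ⟨Q1 * Q2, Nat.mul_pos hQ1 hQ2, fun q hq hd => ?_⟩
    obtain ⟨L1, h4⟩ := h1 q hq (dvd_trans (Dvd.intro _ rfl) hd)
    obtain ⟨L2, h5⟩ := h3 q hq (dvd_trans (Dvd.intro_left _ rfl) hd)
    refine ⟨L1 + L2, fun T hT u => ⟨(h4 T (by omega) u).trans ?_, (h5 T (by omega) u).trans ?_⟩⟩
    · rw [Nat.cast_le]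
      refine Set.ncard_le_ncard ?_ ((Set.finite_Ioc u (u + T)).subset fun k hk => ⟨hk.1, hk.2.1⟩)
      rintro k ⟨h6, h7, h8⟩
      refine ⟨h6, h7, ?_⟩
      rw [Set.mem_ofPred_eq] at h8
      push_cast at h8
      exact h8
    · rw [Nat.cast_le]
      refine Set.ncard_le_ncard ?_ ((Set.finite_Ioc u (u + T)).subset fun k hk => ⟨hk.1, hk.2.1⟩)
      rintro k ⟨h6, h7, h8⟩
      refine ⟨h6, h7, ?_⟩
      rw [Set.mem_ofPred_eq] at h8
      push_cast at h8
      exact h8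

end Pool.Agent.Results.MP_70e905_nt.TranslatesOfDifferences
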